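import Pool.Agent.Lib_MP_55d5ef_pd.PDX
import Pool.Agent.Lib_MP_55d5ef_pl.Stmt
import Pool.Agent.Lib_MP_55d5ef_geo.GMain

/-!
# `MP_55d5ef_gt`, level B: base change from lattice coordinates to the Lorentz form
-/

open Matrix Lib_MP_55d5ef_geo Lib_MP_55d5ef Lib_MP_55d5ef_q Fl49 H4C PL55

namespace Lib_MP_55d5ef_pd

/-- The base change as a homeomorphism of the two hyperboloids. -/
noncomputable def PHL : HL ≃ₜ H4 where
  toFun x := ⟨PM *ᵥ x.1, PM_mem x.2⟩
  invFun y := ⟨QM *ᵥ y.1, QM_mem y.2⟩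
  left_inv x := Subtype.ext (QM_mulVec_PM x.1)
  right_inv y := Subtype.ext (PM_mulVec_QM y.1)
  continuous_toFun := by
    refine Continuous.subtype_mk ?_ _
    exact Continuous.matrix_mulVec continuous_const continuous_subtype_val
  continuous_invFun := by
    refine Continuous.subtype_mk ?_ _
    exact Continuous.matrix_mulVec continuous_const continuous_subtype_val

theorem PHL_rel {x y : HL} : orb x y ↔ orbitSetoid (img Gam) (PHL x) (PHL y) := by
  constructor
  · rintro ⟨g, hg, h⟩
    refine ⟨phi g, ⟨g, hg, rfl⟩, ?_⟩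
    show (phi g).1 *ᵥ (PM *ᵥ x.1) = PM *ᵥ y.1
    rw [phi_act, h]
  · rintro ⟨_, ⟨g, hg, rfl⟩, h⟩
    refine ⟨g, hg, ?_⟩
    have h' : (phi g).1 *ᵥ (PM *ᵥ x.1) = PM *ᵥ y.1 := h
    rw [phi_act] at h'
    have := congrArg (fun z => QM *ᵥ z) h'
    simpa only [QM_mulVec_PM] using this

/-- The homeomorphism of the quotients. -/
noncomputable def QH : MQ ≃ₜ HypQuot (img Gam) where
  toFun := Quotient.map PHL (fun _ _ h => PHL_rel.1 h)
  invFun := Quotient.map PHL.symm (fun a b h => by
    refine PHL_rel.2 ?_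
    rw [PHL.apply_symm_apply, PHL.apply_symm_apply]
    exact h)
  left_inv := by
    intro q
    induction q using Quotient.inductionOn with
    | h x => simp
  right_inv := by
    intro q
    induction q using Quotient.inductionOn with
    | h x => simp
  continuous_toFun := PHL.continuous.quotient_map' _
  continuous_invFun := PHL.symm.continuous.quotient_map' _

theorem QH_mk (x : HL) : QH (pr x) = Quotient.mk (orbitSetoid (img Gam)) (PHL x) := rfl

/-- The base change as a continuous linear map. -/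
noncomputable def PL1 : (Fin 5 → ℝ) →L[ℝ] (Fin 5 → ℝ) := (Matrix.toLin' PM).toContinuousLinearMap

theorem PL1_apply (x : Fin 5 → ℝ) : PL1 x = PM *ᵥ x := rfl

/-- **The piecewise smooth structure is transported by the base change.** -/
theorem PDX_base {V : Type} [DecidableEq V] [Fintype V] {ρ : Type} {lab : ρ → Finset V}
    {num : ρ → V → ℕ} {od : ρ → V → List V} {S : Set ρ} {T : Set (X lab num od S)}
    {h : X lab num od S → MQ} (hh : PDX lab num od S T HL pr h) :
    PDX lab num od S T H4 (fun x : H4 => Quotient.mk (orbitSetoid (img Gam)) x)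
      (fun x => QH (h x)) := by
  intro x0 i p hp
  obtain ⟨n, Q, g, h1, h2, h3, h4⟩ := hh x0 i p hp
  refine ⟨n, Q, fun k x => PL1 (g k x), h1, ?_, ?_, h4⟩
  · intro k x hx
    obtain ⟨e1, e2⟩ := h2 k x hx
    refine ⟨PM_mem e1, ?_⟩
    show QH (h (chart lab num od S x0 i x)) = _
    rw [e2, QH_mk]
    rfl
  · intro k x hx
    obtain ⟨e1, e2⟩ := h3 k x hx
    have hd : DifferentiableAt ℝ (g k) x := e1.differentiableAt (by simp)
    have hL : ContDiffAt ℝ ((⊤ : ℕ∞) : WithTop ℕ∞) (fun y => PL1 y) (g k x) :=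
      PL1.contDiff.contDiffAt
    refine ⟨ContDiffAt.comp x hL e1, ?_⟩
    intro v hv hv0
    have hc : HasFDerivAt (fun x => PL1 (g k x)) (PL1.comp (fderiv ℝ (g k) x)) x :=
      HasFDerivAt.comp x PL1.hasFDerivAt hd.hasFDerivAt
    rw [hc.fderiv, ContinuousLinearMap.comp_apply, PL1_apply] at hv0
    refine e2 v hv ?_
    have h5 := congrArg (fun z => QM *ᵥ z) hv0
    simpa only [QM_mulVec_PM, Matrix.mulVec_zero] using h5

end Lib_MP_55d5ef_pd
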