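import Pool.Agent.Lib_MP_55d5ef_c.Tab
import Pool.Agent.Lib_MP_55d5ef_geo.GFin
import Pool.Agent.Lib_MP_55d5ef.DataA

/-!
# `MP_55d5ef_gt`, level B: the vertices of every pentachoron are linearly independent
-/

open Matrix Lib_MP_55d5ef_geo Lib_MP_55d5ef Lib_MP_55d5ef_c

namespace Lib_MP_55d5ef_pd

/-- The determinant of the edge vectors of a tile. -/
def dt (w0 w1 w2 w3 : ℤ × ℤ × ℤ) : ℤ :=
  (w1.1 - w0.1) * ((w2.2.1 - w0.2.1) * (w3.2.2 - w0.2.2) - (w2.2.2 - w0.2.2) * (w3.2.1 - w0.2.1))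
  - (w1.2.1 - w0.2.1) * ((w2.1 - w0.1) * (w3.2.2 - w0.2.2) - (w2.2.2 - w0.2.2) * (w3.1 - w0.1))
  + (w1.2.2 - w0.2.2) * ((w2.1 - w0.1) * (w3.2.1 - w0.2.1) - (w2.2.1 - w0.2.1) * (w3.1 - w0.1))

theorem dt_ne : (allLt 3 fun a => allLt 12 fun l =>
    decide (dt (W a l 0) (W a l 1) (W a l 2) (W a l 3) ≠ 0)) = true := by decide +kernel

theorem ax_lt : (allLt 40 fun c => decide (ax c < 3)) = true := by decide +kernel

theorem cramer {a1 a2 a3 b1 b2 b3 c1 c2 c3 x y z : ℝ}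
    (h1 : x * a1 + y * b1 + z * c1 = 0) (h2 : x * a2 + y * b2 + z * c2 = 0)
    (h3 : x * a3 + y * b3 + z * c3 = 0)
    (hD : a1 * (b2 * c3 - b3 * c2) - a2 * (b1 * c3 - b3 * c1) + a3 * (b1 * c2 - b2 * c1) ≠ 0) :
    x = 0 ∧ y = 0 ∧ z = 0 := by
  refine ⟨?_, ?_, ?_⟩
  · have : (a1 * (b2 * c3 - b3 * c2) - a2 * (b1 * c3 - b3 * c1) + a3 * (b1 * c2 - b2 * c1)) * x
        = 0 := by
      linear_combination (b2 * c3 - b3 * c2) * h1 - (b1 * c3 - b3 * c1) * h2
        + (b1 * c2 - b2 * c1) * h3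
    exact (mul_eq_zero.mp this).resolve_left hD
  · have : (a1 * (b2 * c3 - b3 * c2) - a2 * (b1 * c3 - b3 * c1) + a3 * (b1 * c2 - b2 * c1)) * y
        = 0 := by
      linear_combination (a3 * c2 - a2 * c3) * h1 + (a1 * c3 - a3 * c1) * h2
        + (a2 * c1 - a1 * c2) * h3
    exact (mul_eq_zero.mp this).resolve_left hD
  · have : (a1 * (b2 * c3 - b3 * c2) - a2 * (b1 * c3 - b3 * c1) + a3 * (b1 * c2 - b2 * c1)) * z
        = 0 := by
      linear_combination (a2 * b3 - a3 * b2) * h1 + (a3 * b1 - a1 * b3) * h2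
        + (a1 * b2 - a2 * b1) * h3
    exact (mul_eq_zero.mp this).resolve_left hD

theorem act_linear_sum (g : GL (Fin 5) ℤ) (c : Fin 5 → ℝ) (w : Fin 5 → Fin 5 → ℝ) :
    act g (∑ m, c m • w m) = ∑ m, c m • act g (w m) := by
  unfold act
  rw [Matrix.mulVec_sum]
  exact Finset.sum_congr rfl fun m _ => Matrix.mulVec_smul _ _ _

/-- **The vertices of a pentachoron are linearly independent.** -/
theorem V10_indep {i : ℕ} (hi : i < 480) :
    LinearIndependent ℝ (fun m : Fin 5 => toR (V10 i m)) := by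
  rw [Fintype.linearIndependent_iff]
  intro c hc
  set τ := TG (repx (i / 12)) 0 (repz (i / 12)) with hτ
  -- the untranslated vertices
  set u : Fin 5 → Fin 5 → ℤ := fun m =>
    if (m : ℕ) = 0 then e5 else Vz (W (ax (i / 12)) (i % 12) ((m : ℕ) - 1)) with hu
  have hV : ∀ m : Fin 5, toR (V10 i m) = act τ (toR (u m)) := by
    intro m
    rw [act_toR]
    congr 1
    unfold V10
    rw [hu]
    by_cases hm : (m : ℕ) = 0
    · simp only [hm, if_true]
      exact (TM_e5 _ _ _).symm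
    · simp only [hm, if_false]
      rfl
  have h1 : act τ (∑ m, c m • toR (u m)) = 0 := by
    rw [act_linear_sum, ← hc]
    exact Finset.sum_congr rfl fun m _ => by rw [hV]
  have h2 : ∑ m, c m • toR (u m) = 0 := by
    have h3 := congrArg (act τ⁻¹) h1
    rw [act_inv_act] at h3
    rw [h3]
    unfold act
    exact Matrix.mulVec_zero _
  rw [Fin.sum_univ_five] at h2
  set a := ax (i / 12)
  set l := i % 12
  have ha : a < 3 := by
    have := (allLt_iff.mp ax_lt) (i / 12) (by omega)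
    exact of_decide_eq_true this
  have hl : l < 12 := Nat.mod_lt _ (by norm_num)
  have hD := of_decide_eq_true ((allLt_iff.mp ((allLt_iff.mp dt_ne) a ha)) l hl)
  have u0 : u 0 = e5 := rfl
  have u1 : u 1 = Vz (W a l 0) := rfl
  have u2 : u 2 = Vz (W a l 1) := rfl
  have u3 : u 3 = Vz (W a l 2) := rfl
  have u4 : u 4 = Vz (W a l 3) := rfl
  rw [u0, u1, u2, u3, u4] at h2
  set w0 := W a l 0
  set w1 := W a l 1
  set w2 := W a l 2
  set w3 := W a l 3
  have k0 := congrFun h2 0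
  have k1 := congrFun h2 1
  have k2 := congrFun h2 2
  have k3 := congrFun h2 3
  have k4 := congrFun h2 4
  simp only [Pi.add_apply, Pi.smul_apply, smul_eq_mul, Pi.zero_apply, toR, e5, Vz,
    Matrix.cons_val] at k0 k1 k2 k3 k4
  push_cast at k0 k1 k2 k3 k4
  have hs : c 1 = -(c 2 + c 3 + c 4) := by linarith
  have hD' : ((w1.1 : ℝ) - w0.1) * (((w2.2.1 : ℝ) - w0.2.1) * (w3.2.2 - w0.2.2)
        - (w2.2.2 - w0.2.2) * (w3.2.1 - w0.2.1))
      - (w1.2.1 - w0.2.1) * ((w2.1 - w0.1) * (w3.2.2 - w0.2.2)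
        - (w2.2.2 - w0.2.2) * (w3.1 - w0.1))
      + (w1.2.2 - w0.2.2) * ((w2.1 - w0.1) * (w3.2.1 - w0.2.1)
        - (w2.2.1 - w0.2.1) * (w3.1 - w0.1)) ≠ 0 := by
    have : ((dt w0 w1 w2 w3 : ℤ) : ℝ) ≠ 0 := by exact_mod_cast hD
    unfold dt at this
    push_cast at this
    exact this
  obtain ⟨e2, e3, e4⟩ := cramer (x := c 2) (y := c 3) (z := c 4)
    (a1 := (w1.1 : ℝ) - w0.1) (a2 := w1.2.1 - w0.2.1) (a3 := w1.2.2 - w0.2.2)
    (b1 := (w2.1 : ℝ) - w0.1) (b2 := w2.2.1 - w0.2.1) (b3 := w2.2.2 - w0.2.2)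
    (c1 := (w3.1 : ℝ) - w0.1) (c2 := w3.2.1 - w0.2.1) (c3 := w3.2.2 - w0.2.2)
    (by rw [hs] at k1; linarith) (by rw [hs] at k2; linarith) (by rw [hs] at k3; linarith) hD'
  have e1 : c 1 = 0 := by rw [hs, e2, e3, e4]; ring
  have e0 : c 0 = 0 := by rw [e1, e2, e3, e4] at k0; linarith
  intro m
  fin_cases m
  · exact e0
  · exact e1
  · exact e2
  · exact e3
  · exact e4

/-- The same for rescaled vertices. -/
theorem V10_indep_smul {i : ℕ} (hi : i < 480) {s : Fin 5 → ℝ} (hs : ∀ m, s m ≠ 0) :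
    LinearIndependent ℝ (fun m : Fin 5 => s m • toR (V10 i m)) := by
  rw [Fintype.linearIndependent_iff]
  intro c hc m
  have h1 := Fintype.linearIndependent_iff.mp (V10_indep hi) (fun m => c m * s m) (by
    rw [← hc]
    refine Finset.sum_congr rfl fun m _ => ?_
    rw [smul_smul]) m
  exact (mul_eq_zero.mp h1).resolve_right (hs m)

end Lib_MP_55d5ef_pd
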