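import Pool.Agent.Lib_MP_55d5ef_c.CCon
import Pool.Agent.Lib_MP_55d5ef_pd.Base
import Pool.Agent.Lib_MP_55d5ef_pd.Ind

/-!
# `MP_55d5ef_gt`, level B, link L1: `|C480|` minus the ideal vertex `= H⁴/Γ`, piecewise smoothly
-/

open Matrix Lib_MP_55d5ef_geo Lib_MP_55d5ef Lib_MP_55d5ef_c Lib_MP_55d5ef_q Fl49 H4C PL55

namespace Lib_MP_55d5ef_pd

theorem VC_indep (i : Fin 480) : LinearIndependent ℝ (VC i) := by
  have h1 := V10_indep_smul (i := i.1) i.2 (s := fun m => if m = 0 then 1 else 1 / 10) (by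
    intro m
    by_cases hm : m = 0
    · simp [hm]
    · simp [hm])
  have h2 : (fun m : Fin 5 => (if m = 0 then (1 : ℝ) else 1 / 10) • toR (V10 i.1 m)) = VC i := by
    funext m
    unfold VC
    by_cases hm : m = 0
    · rw [hm]
      simp only [if_true, one_smul]
      have : V10 i.1 ((0 : Fin 5) : ℕ) = e5 := V10_zero _
      rw [this, e5_toR]
    · simp only [hm, if_false]
  rw [← h2]
  exact h1

/-- The total version of helper51's homeomorphism. -/
noncomputable def hF : XC → MQ := FF topC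

theorem homC_eq (p : XC) (hp : p ≠ pinf) : homC ⟨p, hp⟩ = hF p := rfl

theorem pt_lt {i : SC} {x : Fin 5 → ℝ} (hx : x ∈ Dl (Finset.univ : Finset (Fin 5)))
    (h : pt labU numC odC i.1 i.2 x hx ∉ ({pinf} : Set XC)) : x 0 < 1 := by
  have h1 : (pt labU numC odC i.1 i.2 x hx : XC) ∈ Xo topC := by
    rw [Xo_pinf]
    exact h
  exact h1

/-- **L1, the piecewise smooth part.** -/
theorem hF_PDX : PDX labU numC odC SC {pinf} HL pr hF :=
  FF_PDX topC (fun i _ => VC_indep i) {pinf} fun _ _ hx h => pt_lt hx h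

/-- **L1 with values in `H⁴/Γ'`** (`Γ' = img Gam` in the Lorentz model). -/
theorem hFB_PDX : PDX labU numC odC SC {pinf} H4
    (fun x : H4 => (Quotient.mk (orbitSetoid (img Gam)) x : HypQuot (img Gam)))
    (fun x => QH (hF x)) :=
  PDX_base hF_PDX

/-- The homeomorphism with values in `H⁴/Γ'`. -/
noncomputable def homB : {p : XC // p ≠ pinf} ≃ₜ HypQuot (img Gam) := homC.trans QH

theorem homB_eq (p : XC) (hp : p ≠ pinf) : homB ⟨p, hp⟩ = QH (hF p) := rfl

end Lib_MP_55d5ef_pd
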