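import Pool.Agent.Lib_MP_55d5ef_c.CTop
import Pool.Agent.Lib_MP_55d5ef_pl.PL

/-!
# `MP_55d5ef_gt`, level B: the straight maps are smooth immersions

The map `FF h : |C| → H⁴/Γ` of `CTop` is, on every pentachoron (away from the ideal vertex),
the composition of the smooth immersion `nrm ∘ YY (Vx i)` with the covering projection
(`FF_isPD`).
-/

open Matrix Lib_MP_55d5ef_geo Fl49 H4C

namespace Lib_MP_55d5ef_pd

theorem contDiff_bf : ContDiff ℝ ((⊤ : ℕ∞) : WithTop ℕ∞) fun X : Fin 5 → ℝ => bf X X := by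
  unfold bf
  fun_prop

theorem contDiffAt_sqrt {X : Fin 5 → ℝ} (h : bf X X < 0) :
    ContDiffAt ℝ ((⊤ : ℕ∞) : WithTop ℕ∞) (fun X : Fin 5 → ℝ => Real.sqrt (-bf X X)) X :=
  (contDiff_bf.contDiffAt.neg).sqrt (by linarith)

theorem contDiffAt_nrm {X : Fin 5 → ℝ} (h : bf X X < 0) :
    ContDiffAt ℝ ((⊤ : ℕ∞) : WithTop ℕ∞) nrm X := by
  unfold nrm
  refine ContDiffAt.smul ((contDiffAt_sqrt h).inv ?_) contDiffAt_id
  exact (Real.sqrt_pos.mpr (by linarith)).ne'

/-- The derivative of the radial projection vanishes only in the radial direction. -/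
theorem fderiv_nrm {X v : Fin 5 → ℝ} (h : bf X X < 0) (hv : fderiv ℝ nrm X v = 0) :
    ∃ c : ℝ, v = c • X := by
  have hs : 0 < Real.sqrt (-bf X X) := Real.sqrt_pos.mpr (by linarith)
  have d1 : DifferentiableAt ℝ (fun X : Fin 5 → ℝ => Real.sqrt (-bf X X)) X :=
    (contDiffAt_sqrt h).differentiableAt (by simp)
  have d2 : DifferentiableAt ℝ nrm X := (contDiffAt_nrm h).differentiableAt (by simp)
  have e : (fun Y : Fin 5 → ℝ => Real.sqrt (-bf Y Y) • nrm Y) =ᶠ[nhds X] fun Y => Y := by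
    have hopen : IsOpen {Y : Fin 5 → ℝ | bf Y Y < 0} :=
      isOpen_lt contDiff_bf.continuous continuous_const
    filter_upwards [hopen.mem_nhds h] with Y hY
    have : 0 < Real.sqrt (-bf Y Y) := Real.sqrt_pos.mpr (by
      have : bf Y Y < 0 := hY
      linarith)
    unfold nrm
    rw [smul_smul, mul_inv_cancel₀ this.ne', one_smul]
  have f1 := (d1.hasFDerivAt.smul d2.hasFDerivAt).congr_of_eventuallyEq e.symm
  have f2 := f1.unique (hasFDerivAt_id X)
  have f3 := congrArg (fun L : (Fin 5 → ℝ) →L[ℝ] (Fin 5 → ℝ) => L v) f2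
  simp only [_root_.add_apply, _root_.smul_apply,
    ContinuousLinearMap.smulRight_apply, ContinuousLinearMap.coe_id', id_eq] at f3
  rw [hv, smul_zero, zero_add] at f3
  refine ⟨fderiv ℝ (fun X : Fin 5 → ℝ => Real.sqrt (-bf X X)) X v * (Real.sqrt (-bf X X))⁻¹, ?_⟩
  rw [mul_smul]
  exact f3.symm

/-- The linear map `x ↦ ∑ x_k V_k`. -/
noncomputable def LV (V : Fin 5 → Fin 5 → ℝ) : (Fin 5 → ℝ) →L[ℝ] (Fin 5 → ℝ) :=
  ∑ k, (ContinuousLinearMap.proj (R := ℝ) (φ := fun _ : Fin 5 => ℝ) k).smulRight (V k)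

theorem LV_apply (V : Fin 5 → Fin 5 → ℝ) (x : Fin 5 → ℝ) : LV V x = YY V x := by
  unfold LV YY
  rw [_root_.sum_apply]
  rfl

/-- The straight simplex is smooth. -/
theorem nrmYY_contDiffAt {V : Fin 5 → Fin 5 → ℝ} {x : Fin 5 → ℝ} (h : YY V x ∈ Up) :
    ContDiffAt ℝ ((⊤ : ℕ∞) : WithTop ℕ∞) (fun x => nrm (YY V x)) x := by
  have e : (fun x => nrm (YY V x)) = fun x => nrm (LV V x) := by
    funext x; rw [LV_apply]
  rw [e]
  rw [← LV_apply] at h
  have h1 : ContDiffAt ℝ ((⊤ : ℕ∞) : WithTop ℕ∞) (fun x => LV V x) x :=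
    (LV V).contDiff.contDiffAt
  exact ContDiffAt.comp x (contDiffAt_nrm h.1) h1

/-- The straight simplex is an immersion. -/
theorem nrmYY_fderiv_inj {V : Fin 5 → Fin 5 → ℝ} (hV : LinearIndependent ℝ V) {x v : Fin 5 → ℝ}
    (h : YY V x ∈ Up) (hx : ∑ k, x k = 1) (hv : ∑ k, v k = 0)
    (h0 : fderiv ℝ (fun x => nrm (YY V x)) x v = 0) : v = 0 := by
  have e : (fun x => nrm (YY V x)) = fun x => nrm (LV V x) := by
    funext x; rw [LV_apply]
  rw [← LV_apply] at h
  have d2 : DifferentiableAt ℝ nrm (LV V x) := (contDiffAt_nrm h.1).differentiableAt (by simp)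
  have d3 : HasFDerivAt (fun x => nrm (LV V x)) ((fderiv ℝ nrm (LV V x)).comp (LV V)) x :=
    HasFDerivAt.comp x d2.hasFDerivAt (LV V).hasFDerivAt
  rw [e, d3.fderiv, ContinuousLinearMap.comp_apply] at h0
  obtain ⟨c, hc⟩ := fderiv_nrm h.1 h0
  have h5 : LV V (v - c • x) = 0 := by
    rw [map_sub, map_smul, hc, sub_self]
  rw [LV_apply] at h5
  have h6 := Fintype.linearIndependent_iff.mp hV _ h5
  have h7 : ∀ k, v k = c * x k := by
    intro k
    have := h6 k
    simp only [Pi.sub_apply, Pi.smul_apply, smul_eq_mul] at this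
    linarith
  have h8 : c = 0 := by
    have : ∑ k, v k = c * ∑ k, x k := by
      rw [Finset.mul_sum]
      exact Finset.sum_congr rfl fun k _ => h7 k
    rw [hv, hx, mul_one] at this
    exact this.symm
  funext k
  rw [h7 k, h8, zero_mul]
  rfl

/-- The directions of a simplex: coordinate sum zero. -/
def W0 : Submodule ℝ (Fin 5 → ℝ) where
  carrier := {v | ∑ k, v k = 0}
  zero_mem' := by simp
  add_mem' := by
    intro a b ha hb
    simp only [Set.mem_ofPred_eq, Pi.add_apply, Finset.sum_add_distrib] at *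
    rw [ha, hb, add_zero]
  smul_mem' := by
    intro c a ha
    simp only [Set.mem_ofPred_eq, Pi.smul_apply, smul_eq_mul] at *
    rw [← Finset.mul_sum, ha, mul_zero]

/-- The domain of a chart: a pentachoron without its ideal vertex. -/
def D0 : Set (Fin 5 → ℝ) := {x | x ∈ Dl (Finset.univ : Finset (Fin 5)) ∧ x 0 < 1}

/-- **`FF h` is piecewise smooth**, with one piece on every pentachoron; `χ` is any family of
charts which is the tautological one on the simplices. -/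
theorem FF_isPD {ρ : Type} {Vx : ρ → Fin 5 → Fin 5 → ℝ} {num : ρ → Fin 5 → ℕ}
    {od : ρ → Fin 5 → List (Fin 5)} {S : Set ρ} (h : TopData Vx num od S)
    (hind : ∀ i ∈ S, LinearIndependent ℝ (Vx i))
    (χ : S → (Fin 5 → ℝ) → X labU num od S)
    (hχ : ∀ (i : S) (x : Fin 5 → ℝ) (hx : x ∈ Dl (Finset.univ : Finset (Fin 5))),
      χ i x = mkX num od S ⟨i, ⟨x, hx⟩⟩) :
    PL55.IsPD (fun _ : S => D0) (fun _ => W0) χ HL pr (FF h) := by
  rintro i p hp
  refine ⟨1, fun _ => Set.univ, fun _ x => nrm (YY (Vx i.1) x), fun _ => PL55.HPoly.univ,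
    ?_, ?_, Filter.Eventually.of_forall fun x => ⟨0, Set.mem_univ x⟩⟩
  · rintro _ x ⟨_, hx⟩
    have hU := YY_Up (h.pent i.1 i.2) hx.1 hx.2
    refine ⟨nrm_HL hU, ?_⟩
    rw [hχ i x hx.1]
    show pr (hl (YY (Vx i.1) x)) = pr ⟨nrm (YY (Vx i.1) x), nrm_HL hU⟩
    congr 1
    exact Subtype.ext (hl_val hU)
  · rintro _ x ⟨_, hx⟩
    have hU := YY_Up (h.pent i.1 i.2) hx.1 hx.2
    exact ⟨nrmYY_contDiffAt hU, fun v hv h0 =>
      nrmYY_fderiv_inj (hind i.1 i.2) hU hx.1.2.2 hv h0⟩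

end Lib_MP_55d5ef_pd
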