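import Pool.Agent.Lib_MP_55d5ef_pd.PD
import Pool.Agent.Lib_MP_55d5ef_pl.PLX

/-!
# `MP_55d5ef_gt`, level B: the straight homeomorphism is piecewise smooth, in the form `PDX`
-/

open Matrix Lib_MP_55d5ef_geo Fl49 H4C

namespace Lib_MP_55d5ef_pd

theorem dirs_univ : PL55.dirs (Finset.univ : Finset (Fin 5)) = W0 := by
  ext v
  constructor
  · rintro ⟨_, h⟩
    exact h
  · intro h
    exact ⟨fun u hu => absurd (Finset.mem_univ u) hu, h⟩

/-- **`FF h` is piecewise smooth outside the ideal vertex.** -/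
theorem FF_PDX {ρ : Type} {Vx : ρ → Fin 5 → Fin 5 → ℝ} {num : ρ → Fin 5 → ℕ}
    {od : ρ → Fin 5 → List (Fin 5)} {S : Set ρ} (h : TopData Vx num od S)
    (hind : ∀ i ∈ S, LinearIndependent ℝ (Vx i)) (T : Set (X labU num od S))
    (hT : ∀ (i : S) (x : Fin 5 → ℝ) (hx : x ∈ Dl (Finset.univ : Finset (Fin 5))),
      pt labU num od i.1 i.2 x hx ∉ T → x 0 < 1) :
    PL55.PDX labU num od S T HL pr (FF h) := by
  intro x0 i p hp
  refine ⟨1, fun _ => Set.univ, fun _ x => nrm (YY (Vx i.1) x), fun _ => PL55.HPoly.univ,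
    ?_, ?_, Filter.Eventually.of_forall fun x => ⟨0, Set.mem_univ x⟩⟩
  · rintro _ x ⟨_, ⟨hx1, hx2⟩⟩
    have h0 := hT i x hx1 hx2
    have hU := YY_Up (h.pent i.1 i.2) hx1 h0
    refine ⟨nrm_HL hU, ?_⟩
    unfold PL55.chart
    rw [dif_pos hx1]
    show pr (hl (YY (Vx i.1) x)) = pr ⟨nrm (YY (Vx i.1) x), nrm_HL hU⟩
    congr 1
    exact Subtype.ext (hl_val hU)
  · rintro _ x ⟨_, ⟨hx1, hx2⟩⟩
    have h0 := hT i x hx1 hx2
    have hU := YY_Up (h.pent i.1 i.2) hx1 h0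
    refine ⟨nrmYY_contDiffAt hU, fun v hv h0 => ?_⟩
    have hv' : v ∈ W0 := by rw [← dirs_univ]; exact hv
    exact nrmYY_fderiv_inj (hind i.1 i.2) hU hx1.2.2 hv' h0

end Lib_MP_55d5ef_pd
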